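import Mathlib
import Pool.Agent.W121.CY.Main2

set_option autoImplicit false

/-!
The cycles of the 3x+1 map on the integers whose parity word is a concatenation of few words of low
complexity.
-/

namespace Pool.Agent.Results.MP_dee342_nt.LowComplexityBlocks

/-- The 3x+1 map on the integers. -/
def T (x : ℤ) : ℤ := if x % 2 = 0 then x / 2 else (3 * x + 1) / 2

/-- `Z` is a cycle of `T`. -/
def IsCycle (Z : Finset ℤ) : Prop :=
  ∃ (x : ℤ) (p : ℕ), 1 ≤ p ∧ T^[p] x = x ∧ Z = (Finset.range p).image fun i => T^[i] x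

/-- The parity word of `x`. -/
def par (x : ℤ) (i : ℕ) : ℤ := T^[i] x % 2

/-- The set of the factors of length `n` of the word `w a, w (a+1), ..., w (b-1)`. -/
def factors (w : ℕ → ℤ) (a b n : ℕ) : Finset (Fin n → ℤ) :=
  ((Finset.Ico a b).filter fun i => i + n ≤ b).image fun i => fun j : Fin n => w (i + j)

/-- The word `w 0, w 1, ..., w (p-1)` is a concatenation of `m` words (cut at
`0 = t 0 ≤ t 1 ≤ ... ≤ t m = p`) each of which has, for every `n ≥ 1`, at most `n + 5` different
factors of length `n`. -/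
def Blocks (w : ℕ → ℤ) (m p : ℕ) : Prop :=
  ∃ t : ℕ → ℕ, t 0 = 0 ∧ t m = p ∧ (∀ i < m, t i ≤ t (i + 1)) ∧
    ∀ i < m, ∀ n, 1 ≤ n → (factors w (t i) (t (i + 1)) n).card ≤ n + 5

/-- (1) A finite set of integers is a cycle of the 3x+1 map whose parity word, read around the cycle
from some element, is a concatenation of five words with at most `n + 5` factors of each length `n`,
if and only if it is one of the five known cycles. (2) If the parity word of a cycle with `p` elements
is a concatenation of `m` such words, then `p ≤ 4.295 * 3.82^m * (log_2 (|y| + 1) + 5.17)` for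
every element `y`. (3) Hence `m ≥ (log p - log (1 + log p)) / log 3.82 - A` with an absolute
constant. -/
theorem result :
    (∀ Z : Finset ℤ, (IsCycle Z ∧ ∃ x ∈ Z, Blocks (par x) 5 Z.card) ↔
      Z = {0} ∨ Z = {-1} ∨ Z = {1, 2} ∨ Z = {-5, -7, -10} ∨
        Z = {-17, -25, -37, -55, -82, -41, -61, -91, -136, -68, -34}) ∧
    (∀ Z : Finset ℤ, IsCycle Z → ∀ x ∈ Z, ∀ m : ℕ, Blocks (par x) m Z.card → ∀ y ∈ Z,
      (Z.card : ℝ) ≤ 4.295 * 3.82 ^ m * (Real.logb 2 (|(y : ℝ)| + 1) + 5.17)) ∧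
    ∃ A : ℝ, ∀ Z : Finset ℤ, IsCycle Z → ∀ x ∈ Z, ∀ m : ℕ, Blocks (par x) m Z.card →
      Real.log Z.card - Real.log (1 + Real.log Z.card) ≤ m * Real.log 3.82 + A :=
  ⟨Pool.Agent.W121.CY.main, fun _ hZ _ hx _ hB _ hy => Pool.Agent.W121.CY.ineq hZ hx hB hy,
    Pool.Agent.W121.CY.asym⟩

end Pool.Agent.Results.MP_dee342_nt.LowComplexityBlocks
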