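import Mathlib
import Pool.Agent.W42.CpxG

set_option autoImplicit false

/-!
Lower bounds for the subword complexity of the parity words of the cycles of the maps `T_{a,b}`.
-/

namespace Pool.Agent.Results.MP_dee342_nt.ParityComplexity

/-- The map `T_{a,b}` on the integers: `(a x + b) / 2` for odd `x`, `x / 2` for even `x`. -/
def T (a b x : ℤ) : ℤ := if x % 2 = 0 then x / 2 else (a * x + b) / 2

/-- `Z` is a cycle of `T_{a,b}`. -/
def IsCycle (a b : ℤ) (Z : Finset ℤ) : Prop :=
  ∃ (x : ℤ) (p : ℕ), 1 ≤ p ∧ (T a b)^[p] x = x ∧ Z = (Finset.range p).image fun i => (T a b)^[i] x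

/-- the parity words of length `n` which can be read along `Z` -/
def words (a b : ℤ) (Z : Finset ℤ) (n : ℕ) : Finset (Fin n → ℤ) :=
  Z.image fun x => fun j : Fin n => (T a b)^[(j : ℕ)] x % 2

/-- Let `a` be an odd prime, `b` an odd integer and `c < 1 + log 2 / log (a / 2)` (for `a = 3` this is
`2.7095...`, for `a = 5` it is `1.7564...`). (1) There is `A` such that for every cycle `Z` of
`T_{a,b}` on the integers and every `n ≥ A (1 + log |Z|) ^ 2` at least `min (|Z|, c n)` different
parity words of length `n` can be read along `Z`. (2) For every `C` only finitely many cycles of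
`T_{a,b}` have at most `c n + C` parity words of length `n` for every `n`. -/
theorem result (a : ℕ) (ha : a.Prime) (ha2 : a ≠ 2) (b : ℤ) (hb : b % 2 = 1) (c : ℝ)
    (hc : c < 1 + Real.log 2 / Real.log (a / 2)) :
    (∃ A : ℝ, ∀ Z : Finset ℤ, IsCycle a b Z → ∀ n : ℕ, A * (1 + Real.log Z.card) ^ 2 ≤ n →
      min (Z.card : ℝ) (c * n) ≤ (words a b Z n).card) ∧
    ∀ C : ℝ, {Z : Finset ℤ | IsCycle a b Z ∧
      ∀ n : ℕ, ((words a b Z n).card : ℝ) ≤ c * n + C}.Finite := by
  constructor
  · obtain ⟨A, -, hA⟩ := Pool.Agent.W42.CpxG.main ha ha2 hb c hc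
    exact ⟨A, hA⟩
  · exact Pool.Agent.W42.CpxG.finite_low ha ha2 hb c hc

end Pool.Agent.Results.MP_dee342_nt.ParityComplexity
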